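import Mathlib

open Set Topology

namespace H71Hex

/-- the regular hexagon whose vertices are the sixth roots of unity -/
def hexagon : Set ℂ := convexHull ℝ {z : ℂ | z ^ 6 = 1}

/-- an arc: a subset of the plane homeomorphic to `[0,1]` -/
def IsArc (A : Set ℂ) : Prop := Nonempty (A ≃ₜ unitInterval)

/-- a family of isometries of the plane such that the images of `T` form a tiling: they cover the
plane and have pairwise disjoint interiors -/
structure IsTiling {ι : Type} (T : Set ℂ) (σ : ι → ℂ ≃ᵢ ℂ) : Prop where
  countable : Countable ι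
  cover : ⋃ i, σ i '' T = univ
  disjoint : Pairwise fun i j => Disjoint (interior (σ i '' T)) (interior (σ j '' T))

/-- a marking of `T`: one or several arcs contained in `T` -/
structure IsMarking (T : Set ℂ) (A : Set (Set ℂ)) : Prop where
  finite : A.Finite
  nonempty : A.Nonempty
  arc : ∀ a ∈ A, IsArc a ∧ a ⊆ T

/-- the union of the marked arcs over all tiles -/
def markedSet {ι : Type} (σ : ι → ℂ ≃ᵢ ℂ) (A : Set (Set ℂ)) : Set ℂ := ⋃ i, ⋃ a ∈ A, σ i '' a

/-- an unbounded simple curve: the image of a proper continuous injective map from `ℝ` or from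
`[0, ∞)` to the plane -/
def IsUnboundedSimpleCurve (C : Set ℂ) : Prop :=
  (∃ f : ℝ → ℂ, IsProperMap f ∧ Function.Injective f ∧ range f = C) ∨
  (∃ f : Ici (0 : ℝ) → ℂ, IsProperMap f ∧ Function.Injective f ∧ range f = C)

/-- `U` has exactly `n` connected components and each of them is an unbounded simple curve -/
def IsArmed (n : ℕ) (U : Set ℂ) : Prop :=
  {C : Set ℂ | ∃ x ∈ U, C = connectedComponentIn U x}.encard = n ∧
    ∀ x ∈ U, IsUnboundedSimpleCurve (connectedComponentIn U x)

end H71Hex
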