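import Mathlib
import Pool.Agent.H71.Hex.Defs

open Set Topology Filter

namespace H71Hex

lemma IsUnboundedSimpleCurve.isClosed {C : Set ℂ} (h : IsUnboundedSimpleCurve C) : IsClosed C := by
  rcases h with ⟨f, hf, -, rfl⟩ | ⟨f, hf, -, rfl⟩
  · exact hf.isClosedMap.isClosed_range
  · exact hf.isClosedMap.isClosed_range

lemma IsUnboundedSimpleCurve.isConnected {C : Set ℂ} (h : IsUnboundedSimpleCurve C) :
    IsConnected C := by
  rcases h with ⟨f, hf, -, rfl⟩ | ⟨f, hf, -, rfl⟩
  · exact isConnected_range hf.continuous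
  · have : ConnectedSpace (Ici (0 : ℝ)) := isConnected_iff_connectedSpace.mp isConnected_Ici
    exact isConnected_range hf.continuous

lemma armed_of_family {n : ℕ} {U : Set ℂ} (C : Fin n → Set ℂ) (hU : U = ⋃ i, C i)
    (hdis : Pairwise (fun i j => Disjoint (C i) (C j)))
    (hcurve : ∀ i, IsUnboundedSimpleCurve (C i)) : IsArmed n U := by
  have key : ∀ i, ∀ x ∈ C i, connectedComponentIn U x = C i := by
    intro i x hx
    have hxU : x ∈ U := by rw [hU]; exact mem_iUnion.mpr ⟨i, hx⟩
    apply Subset.antisymm
    · intro y hy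
      by_contra hyi
      have hyU : y ∈ U := connectedComponentIn_subset _ _ hy
      rw [hU, mem_iUnion] at hyU
      obtain ⟨j, hj⟩ := hyU
      have hji : j ≠ i := by rintro rfl; exact hyi hj
      have hpre : IsPreconnected (connectedComponentIn U x) := isPreconnected_connectedComponentIn
      rw [isPreconnected_closed_iff] at hpre
      have hclosed : IsClosed (⋃ j : {j : Fin n // j ≠ i}, C j) :=
        isClosed_iUnion_of_finite fun j => (hcurve j).isClosed
      have := hpre (C i) (⋃ j : {j : Fin n // j ≠ i}, C j) (hcurve i).isClosed hclosed ?_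
        ⟨x, mem_connectedComponentIn hxU, hx⟩ ⟨y, hy, mem_iUnion.mpr ⟨⟨j, hji⟩, hj⟩⟩
      · obtain ⟨z, -, hz1, hz2⟩ := this
        rw [mem_iUnion] at hz2
        obtain ⟨⟨k, hk⟩, hz3⟩ := hz2
        exact (disjoint_left.mp (hdis hk)) hz3 hz1
      · intro z hz
        have hzU : z ∈ U := connectedComponentIn_subset _ _ hz
        rw [hU, mem_iUnion] at hzU
        obtain ⟨k, hk⟩ := hzU
        by_cases hki : k = i
        · left; rw [← hki]; exact hk
        · right; exact mem_iUnion.mpr ⟨⟨k, hki⟩, hk⟩
    · exact (hcurve i).isConnected.isPreconnected.subset_connectedComponentIn hx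
        (by rw [hU]; exact subset_iUnion C i)
  constructor
  · have e : {D : Set ℂ | ∃ x ∈ U, D = connectedComponentIn U x} = range C := by
      ext D
      constructor
      · rintro ⟨x, hx, rfl⟩
        rw [hU, mem_iUnion] at hx
        obtain ⟨i, hi⟩ := hx
        exact ⟨i, (key i x hi).symm⟩
      · rintro ⟨i, rfl⟩
        obtain ⟨x, hx⟩ := (hcurve i).isConnected.nonempty
        exact ⟨x, by rw [hU]; exact mem_iUnion.mpr ⟨i, hx⟩, (key i x hx).symm⟩
    have hinj : Function.Injective C := by
      intro i j hij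
      by_contra hne
      obtain ⟨x, hx⟩ := (hcurve i).isConnected.nonempty
      exact (disjoint_left.mp (hdis hne)) hx (hij ▸ hx)
    rw [e, ← image_univ, hinj.encard_image, encard_univ]
    simp
  · intro x hx
    rw [hU, mem_iUnion] at hx
    obtain ⟨i, hi⟩ := hx
    rw [key i x hi]
    exact hcurve i

end H71Hex
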