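import Mathlib
import Pool.Agent.H71.Hex.Defs

open Set Topology

namespace H71Hex

/-- fine lattice -/
abbrev L := ℤ × ℤ

/-- real coordinates to the plane: `a + b ω` with `ω = exp(iπ/3)` -/
noncomputable def Q (a b : ℝ) : ℂ := ⟨a + b / 2, b * (√3 / 2)⟩

lemma Q_inj {a b c d : ℝ} (h : Q a b = Q c d) : a = c ∧ b = d := by
  unfold Q at h
  have h1 := congrArg Complex.re h
  have h2 := congrArg Complex.im h
  simp only at h1 h2
  have h3 : (0 : ℝ) < √3 / 2 := by positivity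
  have hb : b = d := mul_right_cancel₀ h3.ne' h2
  subst hb
  exact ⟨by linarith, rfl⟩

/-- point of the fine lattice -/
noncomputable def P (v : L) : ℂ := Q v.1 v.2

/-- unit steps -/
def IsUnit' (d : L) : Prop :=
  d = (1, 0) ∨ d = (0, 1) ∨ d = (-1, 1) ∨ d = (-1, 0) ∨ d = (0, -1) ∨ d = (1, -1)

lemma Q_norm_sq (a b : ℝ) : ‖Q a b‖ ^ 2 = a ^ 2 + a * b + b ^ 2 := by
  rw [Complex.sq_norm, Complex.normSq_apply]
  unfold Q
  have : √3 * √3 = 3 := Real.mul_self_sqrt (by norm_num)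
  simp only
  linear_combination (b ^ 2 / 4) * this

lemma Q_add (a b c d : ℝ) : Q (a + c) (b + d) = Q a b + Q c d := by
  unfold Q
  apply Complex.ext <;> simp <;> ring

lemma Q_smul (t a b : ℝ) : Q (t * a) (t * b) = (t : ℂ) * Q a b := by
  unfold Q
  apply Complex.ext <;> simp <;> ring

lemma Q_surj (z : ℂ) : ∃ a b, z = Q a b := by
  refine ⟨z.re - z.im / √3, 2 * z.im / √3, ?_⟩
  have h3 : (√3 : ℝ) ≠ 0 := by positivity
  unfold Q
  apply Complex.ext <;> simp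
  · ring
  · field_simp

/-- point on an edge -/
lemma edge_point (A B : L) (s : ℝ) : (1 - s : ℝ) * P A + (s : ℝ) * P B =
    Q (A.1 + s * (B.1 - A.1)) (A.2 + s * (B.2 - A.2)) := by
  unfold P Q
  apply Complex.ext <;> simp <;> ring

/-- two lattice edges meet only in common vertices -/
lemma edge_meet {A B C D : L} {s t : ℝ} (hs : 0 ≤ s) (hs1 : s < 1) (ht : 0 ≤ t) (ht1 : t < 1)
    (hAB : IsUnit' (B - A)) (hCD : IsUnit' (D - C))
    (h : (1 - s : ℝ) * P A + (s : ℝ) * P B = (1 - t : ℝ) * P C + (t : ℝ) * P D) :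
    (A = C ∧ s = 0 ∧ t = 0) ∨ (A = C ∧ B = D ∧ s = t) ∨ (A = D ∧ B = C ∧ s + t = 1) := by
  rw [edge_point, edge_point] at h
  obtain ⟨h1, h2⟩ := Q_inj h
  obtain ⟨a1, a2⟩ := A
  obtain ⟨c1, c2⟩ := C
  obtain ⟨i1, i2, hi⟩ : ∃ i1 i2 : ℤ, B = (a1 + i1, a2 + i2) := ⟨B.1 - a1, B.2 - a2, by ext <;> simp⟩
  obtain ⟨j1, j2, hj⟩ : ∃ j1 j2 : ℤ, D = (c1 + j1, c2 + j2) := ⟨D.1 - c1, D.2 - c2, by ext <;> simp⟩
  subst hi hj
  obtain ⟨d1, hd1⟩ : ∃ d1 : ℤ, c1 = a1 + d1 := ⟨c1 - a1, by ring⟩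
  obtain ⟨d2, hd2⟩ : ∃ d2 : ℤ, c2 = a2 + d2 := ⟨c2 - a2, by ring⟩
  subst hd1 hd2
  simp only [Prod.mk_sub_mk, add_sub_cancel_left] at hAB hCD
  push_cast at h1 h2
  have h1' : (d1 : ℝ) = s * i1 - t * j1 := by linarith
  have h2' : (d2 : ℝ) = s * i2 - t * j2 := by linarith
  clear h1 h2
  rcases hAB with h | h | h | h | h | h <;> rcases hCD with k | k | k | k | k | k <;>
  (obtain ⟨rfl, rfl⟩ := Prod.mk.inj h
   obtain ⟨rfl, rfl⟩ := Prod.mk.inj k
   push_cast at h1' h2'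
   have b1 : -2 < (d1 : ℝ) := by linarith
   have b2 : (d1 : ℝ) < 2 := by linarith
   have b3 : -2 < (d2 : ℝ) := by linarith
   have b4 : (d2 : ℝ) < 2 := by linarith
   have c1' : -2 < d1 := by exact_mod_cast b1
   have c2' : d1 < 2 := by exact_mod_cast b2
   have c3' : -2 < d2 := by exact_mod_cast b3
   have c4' : d2 < 2 := by exact_mod_cast b4
   clear b1 b2 b3 b4 h k
   interval_cases d1 <;> interval_cases d2 <;> push_cast at h1' h2' <;>
   first
   | (exfalso; linarith)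
   | (left; exact ⟨by simp, by linarith, by linarith⟩)
   | (right; left; exact ⟨by simp, by simp, by linarith⟩)
   | (right; right; exact ⟨by simp, by simp, by linarith⟩))

end H71Hex
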