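import Mathlib
import Pool.Agent.H71.Hex.Defs
import Pool.Agent.H71.Hex.Geom

open Set Topology Filter

namespace H71Hex

/-- polygonal curve -/
noncomputable def poly (p : ℤ → L) (x : ℝ) : ℂ :=
  (1 - Int.fract x : ℝ) * P (p ⌊x⌋) + (Int.fract x : ℝ) * P (p (⌊x⌋ + 1))

lemma poly_on (p : ℤ → L) (k : ℤ) {x : ℝ} (h1 : (k : ℝ) ≤ x) (h2 : x ≤ k + 1) :
    poly p x = (1 - (x - k) : ℝ) * P (p k) + ((x - k : ℝ) : ℂ) * P (p (k + 1)) := by
  rcases h2.lt_or_eq with h | h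
  · have hf : ⌊x⌋ = k := by
      rw [Int.floor_eq_iff]; exact ⟨h1, h⟩
    unfold poly
    rw [← Int.self_sub_floor, hf]
  · have hx : x = ((k + 1 : ℤ) : ℝ) := by push_cast; exact h
    have hf : ⌊x⌋ = k + 1 := by rw [hx]; exact Int.floor_intCast _
    have hr : Int.fract x = 0 := by rw [hx]; exact Int.fract_intCast _
    unfold poly
    rw [hr, hf, h]
    simp

lemma poly_continuous (p : ℤ → L) : Continuous (poly p) := by
  have hlf : LocallyFinite (fun k : ℤ => Icc (k : ℝ) (k + 1)) := by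
    intro x
    refine ⟨Ioo (x - 1) (x + 1), Ioo_mem_nhds (by linarith) (by linarith), ?_⟩
    refine (finite_Icc (⌊x⌋ - 3) (⌊x⌋ + 3)).subset ?_
    rintro k ⟨y, ⟨h1, h2⟩, h3, h4⟩
    have h5 := Int.floor_le x
    have h6 := Int.lt_floor_add_one x
    constructor
    · have : ((⌊x⌋ - 3 : ℤ) : ℝ) ≤ k := by push_cast; linarith
      exact_mod_cast this
    · have : (k : ℝ) ≤ ((⌊x⌋ + 3 : ℤ) : ℝ) := by push_cast; linarith
      exact_mod_cast this
  refine hlf.continuous ?_ (fun k => isClosed_Icc) ?_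
  · rw [eq_univ_iff_forall]
    intro x
    rw [mem_iUnion]
    exact ⟨⌊x⌋, Int.floor_le x, (Int.lt_floor_add_one x).le⟩
  · intro k
    have : ContinuousOn (fun x : ℝ => ((1 - (x - k) : ℝ) : ℂ) * P (p k) +
        ((x - k : ℝ) : ℂ) * P (p (k + 1))) (Icc (k : ℝ) (k + 1)) := by
      fun_prop
    refine this.congr ?_
    intro x hx
    exact poly_on p k hx.1 hx.2

lemma poly_eq_iff (p : ℤ → L) (x : ℝ) :
    poly p x = (1 - Int.fract x : ℝ) * P (p ⌊x⌋) + (Int.fract x : ℝ) * P (p (⌊x⌋ + 1)) := rfl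

/-- `K` is a set of indices closed under successor on which `p` is an injective edge path -/
structure IsPath (p : ℤ → L) (K : Set ℤ) : Prop where
  succ : ∀ k ∈ K, k + 1 ∈ K
  inj : InjOn p K
  step : ∀ k ∈ K, IsUnit' (p (k + 1) - p k)

lemma IsPath.poly_inj {p : ℤ → L} {K : Set ℤ} (h : IsPath p K) {x y : ℝ} (hx : ⌊x⌋ ∈ K)
    (hy : ⌊y⌋ ∈ K) (e : poly p x = poly p y) : x = y := by
  unfold poly at e
  rcases edge_meet (Int.fract_nonneg x) (Int.fract_lt_one x) (Int.fract_nonneg y)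
    (Int.fract_lt_one y) (h.step _ hx) (h.step _ hy) e with ⟨h1, h2, h3⟩ | ⟨h1, h2, h3⟩ |
    ⟨h1, h2, h3⟩
  · have := h.inj hx hy h1
    rw [← Int.floor_add_fract x, ← Int.floor_add_fract y, this, h2, h3]
  · have := h.inj hx hy h1
    rw [← Int.floor_add_fract x, ← Int.floor_add_fract y, this, h3]
  · have a1 := h.inj hx (h.succ _ hy) h1
    have a2 := h.inj (h.succ _ hx) hy h2
    omega

lemma IsUnit'.norm {d : L} (h : IsUnit' d) : ‖P d‖ = 1 := by
  have : ‖P d‖ ^ 2 = 1 := by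
    unfold P
    rw [Q_norm_sq]
    rcases h with h | h | h | h | h | h <;> rw [h] <;> norm_num
  have h0 := norm_nonneg (P d)
  nlinarith

lemma P_sub (u v : L) : P (u - v) = P u - P v := by
  unfold P Q
  apply Complex.ext <;> simp <;> ring

lemma P_add (u v : L) : P (u + v) = P u + P v := by
  unfold P Q
  apply Complex.ext <;> simp <;> ring

lemma P_neg (u : L) : P (-u) = - P u := by
  unfold P Q
  apply Complex.ext <;> simp <;> ring

lemma P_inj {u v : L} (h : P u = P v) : u = v := by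
  obtain ⟨h1, h2⟩ := Q_inj h
  exact Prod.ext (by exact_mod_cast h1) (by exact_mod_cast h2)

lemma finite_ball (R : ℝ) : {v : L | ‖P v‖ ≤ R}.Finite := by
  obtain ⟨N, hN⟩ := exists_nat_gt (max R 0)
  have hR : R < N := lt_of_le_of_lt (le_max_left _ _) hN
  have h0 : (0 : ℝ) < N := lt_of_le_of_lt (le_max_right _ _) hN
  refine ((finite_Icc (-(2 * N : ℤ)) (2 * N)).prod (finite_Icc (-(2 * N : ℤ)) (2 * N))).subset ?_
  rintro ⟨a, b⟩ h
  simp only [mem_setOf_eq] at h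
  have h2 : ‖P (a, b)‖ ^ 2 ≤ (N : ℝ) ^ 2 := by
    have := norm_nonneg (P (a, b))
    nlinarith
  unfold P at h2
  rw [Q_norm_sq] at h2
  simp only at h2
  have key1 : (a : ℝ) ^ 2 ≤ (2 * N) ^ 2 := by
    nlinarith [sq_nonneg ((a : ℝ) + 2 * b), sq_nonneg (N : ℝ)]
  have key2 : (b : ℝ) ^ 2 ≤ (2 * N) ^ 2 := by
    nlinarith [sq_nonneg ((b : ℝ) + 2 * a), sq_nonneg (N : ℝ)]
  have e1 := abs_le_of_sq_le_sq' key1 (by positivity)
  have e2 := abs_le_of_sq_le_sq' key2 (by positivity)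
  rw [mem_prod]
  refine ⟨⟨?_, ?_⟩, ⟨?_, ?_⟩⟩
  · exact_mod_cast e1.1
  · exact_mod_cast e1.2
  · exact_mod_cast e2.1
  · exact_mod_cast e2.2

lemma IsPath.poly_near {p : ℤ → L} {K : Set ℤ} (h : IsPath p K) {x : ℝ} (hx : ⌊x⌋ ∈ K) :
    ‖P (p ⌊x⌋)‖ ≤ ‖poly p x‖ + 1 := by
  have e : P (p ⌊x⌋) = poly p x - (Int.fract x : ℝ) * P (p (⌊x⌋ + 1) - p ⌊x⌋) := by
    unfold poly
    rw [P_sub]
    push_cast
    ring
  rw [e]
  refine (norm_sub_le _ _).trans ?_
  gcongr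
  rw [norm_mul, (h.step _ hx).norm, mul_one, Complex.norm_real, Real.norm_eq_abs,
    abs_of_nonneg (Int.fract_nonneg x)]
  exact (Int.fract_lt_one x).le

lemma IsPath.bounded {p : ℤ → L} {K : Set ℤ} (h : IsPath p K) (R : ℝ) :
    ∃ M : ℝ, ∀ x : ℝ, ⌊x⌋ ∈ K → ‖poly p x‖ ≤ R → |x| ≤ M := by
  have hfin : {k : ℤ | k ∈ K ∧ ‖P (p k)‖ ≤ R + 1}.Finite :=
    Set.Finite.of_injOn (f := p) (t := {v : L | ‖P v‖ ≤ R + 1}) (fun k hk => hk.2)
      (h.inj.mono fun k hk => hk.1) (finite_ball (R + 1))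
  obtain ⟨M1, hM1⟩ := hfin.bddAbove
  obtain ⟨M2, hM2⟩ := hfin.bddBelow
  refine ⟨max |(M1 : ℝ) + 1| |(M2 : ℝ)|, fun x hx hR => ?_⟩
  have hmem : ⌊x⌋ ∈ {k : ℤ | k ∈ K ∧ ‖P (p k)‖ ≤ R + 1} :=
    ⟨hx, (h.poly_near hx).trans (by linarith)⟩
  have e1 : (⌊x⌋ : ℝ) ≤ M1 := by exact_mod_cast hM1 hmem
  have e2 : (M2 : ℝ) ≤ ⌊x⌋ := by exact_mod_cast hM2 hmem
  have e3 := Int.floor_le x
  have e4 := Int.lt_floor_add_one x
  rw [abs_le]
  constructor
  · have := neg_abs_le (M2 : ℝ)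
    have := le_max_right |(M1 : ℝ) + 1| |(M2 : ℝ)|
    linarith
  · have := le_abs_self ((M1 : ℝ) + 1)
    have := le_max_left |(M1 : ℝ) + 1| |(M2 : ℝ)|
    linarith

/-- properness on closed sets of parameters -/
lemma IsPath.proper {p : ℤ → L} {K : Set ℤ} (h : IsPath p K) {X : Type} [TopologicalSpace X]
    (j : X → ℝ) (hj : IsClosedEmbedding j) (hK : ∀ x, ⌊j x⌋ ∈ K) :
    IsProperMap (fun x => poly p (j x)) := by
  rw [isProperMap_iff_isCompact_preimage]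
  refine ⟨(poly_continuous p).comp hj.continuous, fun C hC => ?_⟩
  obtain ⟨R, hR⟩ := hC.isBounded.exists_norm_le
  obtain ⟨M, hM⟩ := h.bounded R
  have hcl : IsClosed ((fun x => poly p (j x)) ⁻¹' C) :=
    hC.isClosed.preimage ((poly_continuous p).comp hj.continuous)
  have hcpt : IsCompact (j ⁻¹' (Icc (-M) M)) := hj.isCompact_preimage isCompact_Icc
  refine hcpt.of_isClosed_subset hcl ?_
  intro x hx
  have := hM (j x) (hK x) (hR _ hx)
  rw [abs_le] at this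
  exact this

lemma IsPath.curve_univ {p : ℤ → L} (h : IsPath p univ) :
    IsUnboundedSimpleCurve (poly p '' univ) := by
  left
  refine ⟨poly p, ?_, ?_, image_univ.symm⟩
  · exact h.proper (fun x : ℝ => x) IsClosedEmbedding.id (fun x => mem_univ _)
  · intro x y e
    exact h.poly_inj (mem_univ _) (mem_univ _) e

lemma IsPath.curve_Ici {p : ℤ → L} (h : IsPath p (Ici 0)) :
    IsUnboundedSimpleCurve (poly p '' (Ici (0 : ℝ))) := by
  right
  have hfl : ∀ x : Ici (0 : ℝ), ⌊(x : ℝ)⌋ ∈ Ici (0 : ℤ) := fun x => Int.floor_nonneg.mpr x.2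
  refine ⟨fun x => poly p x, ?_, ?_, ?_⟩
  · exact h.proper (fun x : Ici (0 : ℝ) => (x : ℝ)) isClosed_Ici.isClosedEmbedding_subtypeVal hfl
  · intro x y e
    exact Subtype.ext (h.poly_inj (hfl x) (hfl y) e)
  · ext z
    simp only [mem_range, mem_image, Subtype.exists, exists_prop]

/-- the edge between two lattice points -/
noncomputable def edge (u v : L) : Set ℂ :=
  (fun s : ℝ => (1 - s : ℝ) * P u + (s : ℝ) * P v) '' Icc 0 1

lemma edge_comm (u v : L) : edge u v = edge v u := by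
  have : ∀ u v : L, edge u v ⊆ edge v u := by
    rintro u v z ⟨s, ⟨h0, h1⟩, rfl⟩
    refine ⟨1 - s, ⟨by linarith, by linarith⟩, ?_⟩
    simp only
    push_cast
    ring
  exact (this u v).antisymm (this v u)

lemma poly_image_Icc (p : ℤ → L) (k : ℤ) :
    poly p '' Icc (k : ℝ) (k + 1) = edge (p k) (p (k + 1)) := by
  ext z
  constructor
  · rintro ⟨x, hx, rfl⟩
    refine ⟨x - k, ⟨by linarith [hx.1], by linarith [hx.2]⟩, ?_⟩
    simp only
    rw [poly_on p k hx.1 hx.2]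
  · rintro ⟨s, hs, rfl⟩
    refine ⟨k + s, ⟨by linarith [hs.1], by linarith [hs.2]⟩, ?_⟩
    rw [poly_on p k (by linarith [hs.1]) (by linarith [hs.2])]
    simp

lemma poly_image_univ (p : ℤ → L) : poly p '' univ = ⋃ k ∈ (univ : Set ℤ), edge (p k) (p (k + 1)) := by
  simp_rw [← poly_image_Icc, ← image_iUnion₂]
  congr 1
  rw [eq_comm, eq_univ_iff_forall]
  intro x
  rw [mem_iUnion₂]
  exact ⟨⌊x⌋, mem_univ _, Int.floor_le x, (Int.lt_floor_add_one x).le⟩

lemma poly_image_Ici (p : ℤ → L) :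
    poly p '' (Ici (0 : ℝ)) = ⋃ k ∈ (Ici 0 : Set ℤ), edge (p k) (p (k + 1)) := by
  simp_rw [← poly_image_Icc, ← image_iUnion₂]
  congr 1
  ext x
  rw [mem_iUnion₂]
  constructor
  · intro hx
    exact ⟨⌊x⌋, Int.floor_nonneg.mpr hx, Int.floor_le x, (Int.lt_floor_add_one x).le⟩
  · rintro ⟨k, hk, h1, h2⟩
    have : (0 : ℝ) ≤ k := by exact_mod_cast hk
    exact this.trans h1

end H71Hex
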