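import Mathlib
import Pool.Agent.H71.Hex.Defs
import Pool.Agent.H71.Hex.Geom
import Pool.Agent.H71.Hex.Poly

open Set Topology Filter

namespace H71Hex

lemma norm_Q01 : ‖Q 0 1‖ = 1 := by
  have h : ‖Q 0 1‖ ^ 2 = 1 := by rw [Q_norm_sq]; norm_num
  have h0 := norm_nonneg (Q 0 1)
  nlinarith

/-- `ω = exp(iπ/3)` as an element of the circle group -/
noncomputable def om : Circle := ⟨Q 0 1, mem_sphere_zero_iff_norm.2 norm_Q01⟩

lemma om_coe : (om : ℂ) = Q 0 1 := rfl

lemma om_mul (a b : ℝ) : (om : ℂ) * Q a b = Q (-b) (a + b) := by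
  rw [om_coe]
  unfold Q
  have : √3 * √3 = 3 := Real.mul_self_sqrt (by norm_num)
  apply Complex.ext
  · simp only [Complex.mul_re]
    linear_combination (-b / 4) * this
  · simp only [Complex.mul_im]
    ring

/-- rotation by 60 degrees on the fine lattice -/
def rotL (v : L) : L := (-v.2, v.1 + v.2)

lemma om_mul_P (v : L) : (om : ℂ) * P v = P (rotL v) := by
  unfold P rotL
  rw [om_mul]
  simp

lemma om_pow_P (r : ℕ) (v : L) : (om : ℂ) ^ r * P v = P (rotL^[r] v) := by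
  induction r with
  | zero => simp
  | succ n ih => rw [pow_succ', mul_assoc, ih, om_mul_P, Function.iterate_succ_apply']

/-- centre of the tile with index `t` -/
def ctr (t : L) : L := (t.1 - t.2, t.1 + 2 * t.2)

/-- placement of the tile with index `t` and rotation `r` -/
noncomputable def sig (r : ℕ) (t : L) : ℂ ≃ᵢ ℂ :=
  (rotation (om ^ r)).toIsometryEquiv.trans (IsometryEquiv.addLeft (P (ctr t)))

lemma sig_apply (r : ℕ) (t : L) (z : ℂ) : sig r t z = P (ctr t) + (om : ℂ) ^ r * z := by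
  show P (ctr t) + rotation (om ^ r) z = _
  rw [rotation_apply]
  simp

lemma sig_P (r : ℕ) (t v : L) : sig r t (P v) = P (ctr t + rotL^[r] v) := by
  rw [sig_apply, om_pow_P, P_add]

lemma sig_edge (r : ℕ) (t u v : L) :
    sig r t '' edge u v = edge (ctr t + rotL^[r] u) (ctr t + rotL^[r] v) := by
  unfold edge
  rw [image_image]
  apply image_congr
  intro s hs
  rw [← sig_P, ← sig_P, sig_apply, sig_apply, sig_apply]
  push_cast
  ring

/-- the hexagon in coordinates -/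
def HexC : Set ℂ := {z | ∃ a b : ℝ, z = Q a b ∧ |a| ≤ 1 ∧ |b| ≤ 1 ∧ |a + b| ≤ 1}

lemma mem_HexC (a b : ℝ) : Q a b ∈ HexC ↔ |a| ≤ 1 ∧ |b| ≤ 1 ∧ |a + b| ≤ 1 := by
  constructor
  · rintro ⟨c, d, h, h'⟩
    obtain ⟨rfl, rfl⟩ := Q_inj h
    exact h'
  · intro h
    exact ⟨a, b, rfl, h⟩

lemma Q_combo (a b c d s t : ℝ) : s • Q a b + t • Q c d = Q (s * a + t * c) (s * b + t * d) := by
  unfold Q
  apply Complex.ext <;> simp <;> ring

lemma convex_HexC : Convex ℝ HexC := by
  rintro x ⟨a, b, rfl, h1, h2, h3⟩ y ⟨c, d, rfl, k1, k2, k3⟩ s t hs ht hst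
  rw [Q_combo, mem_HexC]
  rw [abs_le] at *
  obtain rfl : t = 1 - s := by linarith
  refine ⟨⟨by nlinarith, by nlinarith⟩, ?_, ?_⟩
  · rw [abs_le]
    exact ⟨by nlinarith [h2.1, k2.1], by nlinarith [h2.2, k2.2]⟩
  · rw [abs_le]
    exact ⟨by nlinarith [h3.1, k3.1], by nlinarith [h3.2, k3.2]⟩

lemma om_sq : (Q 0 1) ^ 2 = Q 0 1 - 1 := by
  have := om_mul 0 1
  rw [om_coe] at this
  rw [sq, this]
  unfold Q
  apply Complex.ext <;> simp; norm_num

lemma Q10 : Q 1 0 = 1 := by unfold Q; apply Complex.ext <;> simp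
lemma Qm11 : Q (-1) 1 = Q 0 1 - 1 := by unfold Q; apply Complex.ext <;> simp; ring
lemma Qm10 : Q (-1) 0 = -1 := by unfold Q; apply Complex.ext <;> simp
lemma Q0m1 : Q 0 (-1) = - Q 0 1 := by unfold Q; apply Complex.ext <;> simp; ring
lemma Q1m1 : Q 1 (-1) = 1 - Q 0 1 := by unfold Q; apply Complex.ext <;> simp; ring

lemma sixth_root {z : ℂ} (h : z ^ 6 = 1) : z = Q 1 0 ∨ z = Q 0 1 ∨ z = Q (-1) 1 ∨ z = Q (-1) 0 ∨
    z = Q 0 (-1) ∨ z = Q 1 (-1) := by
  have hw := om_sq
  have hf : (z - 1) * (z - Q 0 1) * (z - (Q 0 1 - 1)) * (z + 1) * (z + Q 0 1) *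
      (z - (1 - Q 0 1)) = 0 := by
    have hw' : (Q 0 1) ^ 2 - Q 0 1 + 1 = 0 := by rw [hw]; ring
    set w := Q 0 1
    have hw4 : w ^ 4 = -w := by
      calc w ^ 4 = (w ^ 2) ^ 2 := by ring
        _ = (w - 1) ^ 2 := by rw [hw]
        _ = w ^ 2 - 2 * w + 1 := by ring
        _ = -w := by rw [hw]; ring
    calc (z - 1) * (z - w) * (z - (w - 1)) * (z + 1) * (z + w) * (z - (1 - w))
        = (z ^ 2 - 1) * (z ^ 2 - w ^ 2) * (z ^ 2 - (w - 1) ^ 2) := by ring
      _ = (z ^ 2 - 1) * (z ^ 2 - (w - 1)) * (z ^ 2 + w) := by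
          rw [hw, show (w - 1) ^ 2 = -w by rw [← hw]; rw [← hw4]; ring]
          ring
      _ = (z ^ 2 - 1) * (z ^ 4 + z ^ 2 - (w ^ 2 - w)) := by ring
      _ = (z ^ 2 - 1) * (z ^ 4 + z ^ 2 + 1) := by rw [hw]; ring
      _ = z ^ 6 - 1 := by ring
      _ = 0 := by rw [h]; ring
  rw [Q10, Qm11, Qm10, Q0m1, Q1m1]
  simp only [mul_eq_zero] at hf
  rcases hf with ((((h | h) | h) | h) | h) | h
  · left; linear_combination h
  · right; left; linear_combination h
  · right; right; left; linear_combination h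
  · right; right; right; left; linear_combination h
  · right; right; right; right; left; linear_combination h
  · right; right; right; right; right; linear_combination h

lemma om_six : (Q 0 1) ^ 6 = 1 := by
  have hw := om_sq
  set w := Q 0 1
  have h3 : w ^ 3 = -1 := by
    calc w ^ 3 = w * w ^ 2 := by ring
      _ = w ^ 2 - w := by rw [hw]; ring_nf; rw [hw]; ring
      _ = -1 := by rw [hw]; ring
  calc w ^ 6 = (w ^ 3) ^ 2 := by ring
    _ = 1 := by rw [h3]; norm_num

lemma tri_mem {s : Set ℂ} (hs : Convex ℝ s) (h0 : (0 : ℂ) ∈ s) {x y : ℂ} (hx : x ∈ s) (hy : y ∈ s)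
    {α β : ℝ} (hα : 0 ≤ α) (hβ : 0 ≤ β) (h : α + β ≤ 1) : α • x + β • y ∈ s := by
  rcases eq_or_lt_of_le (add_nonneg hα hβ) with h1 | h1
  · have e1 : α = 0 := by linarith
    have e2 : β = 0 := by linarith
    rw [e1, e2]
    simpa using h0
  · have : α • x + β • y = (α + β) • ((α / (α + β)) • x + (β / (α + β)) • y) := by
      rw [smul_add, smul_smul, smul_smul, mul_div_cancel₀ _ h1.ne', mul_div_cancel₀ _ h1.ne']
    rw [this]
    refine hs.smul_mem_of_zero_mem h0 (hs hx hy (by positivity) (by positivity) ?_) ⟨h1.le, h⟩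
    field_simp

lemma hexagon_eq : hexagon = HexC := by
  apply Subset.antisymm
  · refine convexHull_min ?_ convex_HexC
    intro z hz
    rcases sixth_root hz with rfl | rfl | rfl | rfl | rfl | rfl <;> rw [mem_HexC] <;> norm_num
  · have hw6 := om_six
    have hw2 := om_sq
    have hc : Convex ℝ hexagon := convex_convexHull ℝ _
    have hp : ∀ z : ℂ, z ^ 6 = 1 → z ∈ hexagon := fun z hz => subset_convexHull _ _ hz
    have p0 : Q 1 0 ∈ hexagon := hp _ (by rw [Q10]; norm_num)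
    have p1 : Q 0 1 ∈ hexagon := hp _ hw6
    have p2 : Q (-1) 1 ∈ hexagon := hp _ (by
      rw [Qm11, ← hw2]
      calc ((Q 0 1) ^ 2) ^ 6 = ((Q 0 1) ^ 6) ^ 2 := by ring
        _ = 1 := by rw [hw6]; norm_num)
    have p3 : Q (-1) 0 ∈ hexagon := hp _ (by rw [Qm10]; norm_num)
    have p4 : Q 0 (-1) ∈ hexagon := hp _ (by rw [Q0m1, neg_pow, hw6]; norm_num)
    have p5 : Q 1 (-1) ∈ hexagon := hp _ (by
      rw [Q1m1]
      calc (1 - Q 0 1) ^ 6 = (Q 0 1 - 1) ^ 6 := by ring
        _ = ((Q 0 1) ^ 6) ^ 2 := by rw [← hw2]; ring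
        _ = 1 := by rw [hw6]; norm_num)
    have pz : (0 : ℂ) ∈ hexagon := by
      have := hc p0 p3 (by norm_num : (0 : ℝ) ≤ 1 / 2) (by norm_num : (0 : ℝ) ≤ 1 / 2)
        (by norm_num)
      rwa [Q10, Qm10, show ((1 / 2 : ℝ) • (1 : ℂ) + (1 / 2 : ℝ) • (-1 : ℂ)) = 0 by simp] at this
    rintro z ⟨a, b, rfl, h1, h2, h3⟩
    rw [abs_le] at h1 h2 h3
    rcases le_total 0 a with ha | ha
    · rcases le_total 0 b with hb | hb
      · have := tri_mem hc pz p0 p1 ha hb h3.2
        rw [Q_combo] at this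
        convert this using 2 <;> ring
      · rcases le_total 0 (a + b) with hab | hab
        · have := tri_mem hc pz p5 p0 (by linarith : 0 ≤ -b) hab (by linarith)
          rw [Q_combo] at this
          convert this using 2 <;> ring
        · have := tri_mem hc pz p4 p5 (by linarith : 0 ≤ - b - a) ha (by linarith)
          rw [Q_combo] at this
          convert this using 2 <;> ring
    · rcases le_total 0 b with hb | hb
      · rcases le_total 0 (a + b) with hab | hab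
        · have := tri_mem hc pz p1 p2 hab (by linarith : 0 ≤ -a) (by linarith)
          rw [Q_combo] at this
          convert this using 2 <;> ring
        · have := tri_mem hc pz p2 p3 hb (by linarith : 0 ≤ - a - b) (by linarith)
          rw [Q_combo] at this
          convert this using 2 <;> ring
      · have := tri_mem hc pz p3 p4 (by linarith : 0 ≤ -a) (by linarith : 0 ≤ -b) (by linarith)
        rw [Q_combo] at this
        convert this using 2 <;> ring

lemma om_HexC (r : ℕ) (z : ℂ) : (om : ℂ) ^ r * z ∈ HexC ↔ z ∈ HexC := by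
  induction r with
  | zero => simp
  | succ n ih =>
    rw [← ih, pow_succ', mul_assoc]
    obtain ⟨a, b, h⟩ := Q_surj ((om : ℂ) ^ n * z)
    rw [h, om_mul, mem_HexC, mem_HexC, abs_neg]
    have : -b + (a + b) = a := by ring
    rw [this]
    tauto

lemma mem_sig (r : ℕ) (t : L) (a b : ℝ) : Q a b ∈ sig r t '' hexagon ↔
    |a - (ctr t).1| ≤ 1 ∧ |b - (ctr t).2| ≤ 1 ∧ |(a - (ctr t).1) + (b - (ctr t).2)| ≤ 1 := by
  rw [hexagon_eq, ← mem_HexC]
  have e : Q a b = P (ctr t) + Q (a - (ctr t).1) (b - (ctr t).2) := by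
    unfold P
    rw [← Q_add]
    congr 1 <;> ring
  constructor
  · rintro ⟨z, hz, h⟩
    rw [sig_apply, e] at h
    rw [← add_left_cancel h, om_HexC]
    exact hz
  · intro h
    refine ⟨(sig r t).symm (Q a b), ?_, by simp⟩
    rw [← om_HexC r]
    have h2 : sig r t ((sig r t).symm (Q a b)) = Q a b := by simp
    rw [sig_apply] at h2
    have h3 := h2.trans e
    rw [add_left_cancel h3]
    exact h

lemma mem_interior_sig {r : ℕ} {t : L} {a b : ℝ} (h : Q a b ∈ interior (sig r t '' hexagon)) :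
    |a - (ctr t).1| < 1 ∧ |b - (ctr t).2| < 1 ∧ |(a - (ctr t).1) + (b - (ctr t).2)| < 1 := by
  rw [mem_interior_iff_mem_nhds, Metric.mem_nhds_iff] at h
  obtain ⟨ε, hε, hb⟩ := h
  have hd : ∀ x y : ℝ, ‖Q x y‖ < ε → Q (a + x) (b + y) ∈ sig r t '' hexagon := by
    intro x y hxy
    apply hb
    rw [Metric.mem_ball, dist_eq_norm, Q_add]
    simpa using hxy
  have n1 : ∀ x : ℝ, |x| < ε → ‖Q x 0‖ < ε := by
    intro x hx
    refine lt_of_pow_lt_pow_left₀ 2 hε.le ?_
    rw [Q_norm_sq]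
    nlinarith [sq_abs x, abs_nonneg x]
  have n2 : ∀ x : ℝ, |x| < ε → ‖Q 0 x‖ < ε := by
    intro x hx
    refine lt_of_pow_lt_pow_left₀ 2 hε.le ?_
    rw [Q_norm_sq]
    nlinarith [sq_abs x, abs_nonneg x]
  have hh : |ε / 2| < ε := by rw [abs_of_pos (by positivity)]; linarith
  have hh' : |-(ε / 2)| < ε := by rw [abs_neg]; exact hh
  have c1 := (mem_sig r t _ _).mp (hd _ _ (n1 _ hh))
  have c2 := (mem_sig r t _ _).mp (hd _ _ (n1 _ hh'))
  have c3 := (mem_sig r t _ _).mp (hd _ _ (n2 _ hh))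
  have c4 := (mem_sig r t _ _).mp (hd _ _ (n2 _ hh'))
  simp only [abs_le] at c1 c2 c3 c4
  simp only [abs_lt]
  refine ⟨⟨by linarith [c2.1.1], by linarith [c1.1.2]⟩, ⟨by linarith [c4.2.1.1],
    by linarith [c3.2.1.2]⟩, ⟨by linarith [c2.2.2.1], by linarith [c1.2.2.2]⟩⟩

lemma ctr_of (m n k : ℤ) (h : n - m = 3 * k) : ctr (m + k, k) = (m, n) := by
  unfold ctr
  ext <;> simp <;> linarith

theorem isTiling_sig (r : L → ℕ) : IsTiling hexagon (fun t => sig (r t) t) := by
  refine ⟨inferInstance, ?_, ?_⟩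
  · rw [eq_univ_iff_forall]
    intro z
    obtain ⟨a, b, rfl⟩ := Q_surj z
    rw [mem_iUnion]
    simp only [mem_sig]
    set i := ⌊a⌋ with hi
    set j := ⌊b⌋ with hj
    have ha1 := Int.floor_le a
    have ha2 := Int.lt_floor_add_one a
    have hb1 := Int.floor_le b
    have hb2 := Int.lt_floor_add_one b
    rw [← hi] at ha1 ha2
    rw [← hj] at hb1 hb2
    have h3 : ∃ k, j - i = 3 * k ∨ j - i = 3 * k + 1 ∨ j - i = 3 * k + 2 :=
      ⟨(j - i) / 3, by omega⟩
    obtain ⟨k, h | h | h⟩ := h3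
    · rcases le_total ((a - i) + (b - j)) 1 with hc | hc
      · refine ⟨(i + k, k), ?_⟩
        rw [ctr_of i j k h]
        simp only [abs_le]
        refine ⟨⟨by linarith, by linarith⟩, ⟨by linarith, by linarith⟩,
          ⟨by linarith, by linarith⟩⟩
      · refine ⟨((i + 1) + k, k), ?_⟩
        rw [ctr_of (i + 1) (j + 1) k (by linarith)]
        push_cast
        simp only [abs_le]
        refine ⟨⟨by linarith, by linarith⟩, ⟨by linarith, by linarith⟩,
          ⟨by linarith, by linarith⟩⟩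
    · refine ⟨((i + 1) + k, k), ?_⟩
      rw [ctr_of (i + 1) j k (by linarith)]
      push_cast
      simp only [abs_le]
      refine ⟨⟨by linarith, by linarith⟩, ⟨by linarith, by linarith⟩,
        ⟨by linarith, by linarith⟩⟩
    · refine ⟨(i + (k + 1), k + 1), ?_⟩
      rw [ctr_of i (j + 1) (k + 1) (by linarith)]
      push_cast
      simp only [abs_le]
      refine ⟨⟨by linarith, by linarith⟩, ⟨by linarith, by linarith⟩,
        ⟨by linarith, by linarith⟩⟩
  · intro s t hst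
    rw [disjoint_left]
    intro z hz1 hz2
    obtain ⟨a, b, rfl⟩ := Q_surj z
    have h1 := mem_interior_sig hz1
    have h2 := mem_interior_sig hz2
    simp only [abs_lt] at h1 h2
    apply hst
    obtain ⟨s1, s2⟩ := s
    obtain ⟨t1, t2⟩ := t
    simp only [ctr] at h1 h2
    push_cast at h1 h2
    have b1 : ((s1 - s2) - (t1 - t2) : ℤ) < (2 : ℤ) := by
      have : (((s1 - s2) - (t1 - t2) : ℤ) : ℝ) < (2 : ℤ) := by push_cast; linarith
      exact_mod_cast this
    have b2 : ((t1 - t2) - (s1 - s2) : ℤ) < (2 : ℤ) := by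
      have : (((t1 - t2) - (s1 - s2) : ℤ) : ℝ) < (2 : ℤ) := by push_cast; linarith
      exact_mod_cast this
    have b3 : ((s1 + 2 * s2) - (t1 + 2 * t2) : ℤ) < (2 : ℤ) := by
      have : (((s1 + 2 * s2) - (t1 + 2 * t2) : ℤ) : ℝ) < (2 : ℤ) := by push_cast; linarith
      exact_mod_cast this
    have b4 : ((t1 + 2 * t2) - (s1 + 2 * s2) : ℤ) < (2 : ℤ) := by
      have : (((t1 + 2 * t2) - (s1 + 2 * s2) : ℤ) : ℝ) < (2 : ℤ) := by push_cast; linarith
      exact_mod_cast this
    have b5 : ((s1 - s2) - (t1 - t2) + ((s1 + 2 * s2) - (t1 + 2 * t2)) : ℤ) < (2 : ℤ) := by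
      have : (((s1 - s2) - (t1 - t2) + ((s1 + 2 * s2) - (t1 + 2 * t2)) : ℤ) : ℝ) < (2 : ℤ) := by
        push_cast; linarith
      exact_mod_cast this
    have b6 : ((t1 - t2) - (s1 - s2) + ((t1 + 2 * t2) - (s1 + 2 * s2)) : ℤ) < (2 : ℤ) := by
      have : (((t1 - t2) - (s1 - s2) + ((t1 + 2 * t2) - (s1 + 2 * s2)) : ℤ) : ℝ) < (2 : ℤ) := by
        push_cast; linarith
      exact_mod_cast this
    ext <;> simp only <;> omega

end H71Hex
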