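import Mathlib
import Pool.Agent.H71.Hex.Defs
import Pool.Agent.H71.Hex.Geom
import Pool.Agent.H71.Hex.Poly
import Pool.Agent.H71.Hex.Comp
import Pool.Agent.H71.Hex.Tiling

open Set Topology Filter

namespace H71Hex

/-- offsets of the corners of type A -/
def OffA (d : L) : Prop := d = (1, 0) ∨ d = (-1, 1) ∨ d = (0, -1)

/-- offsets of the corners of type B -/
def OffB (d : L) : Prop := d = (0, 1) ∨ d = (-1, 0) ∨ d = (1, -1)

/-- `u ≠ v` are two corners of the same type of the tile `t` -/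
def Pair (t u v : L) : Prop :=
  u ≠ v ∧ ((OffA (u - ctr t) ∧ OffA (v - ctr t)) ∨ (OffB (u - ctr t) ∧ OffB (v - ctr t)))

/-- the marked arc: the union of the segments from the centre to two corners at distance two -/
noncomputable def arcS : Set ℂ := edge 0 (1, 0) ∪ edge 0 (-1, 1)

lemma rotL_zero (r : ℕ) : rotL^[r] 0 = 0 := by
  induction r with
  | zero => rfl
  | succ n ih => rw [Function.iterate_succ_apply', ih]; rfl

lemma sig_arcS (r : ℕ) (t : L) : sig r t '' arcS =
    edge (ctr t) (ctr t + rotL^[r] (1, 0)) ∪ edge (ctr t) (ctr t + rotL^[r] (-1, 1)) := by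
  unfold arcS
  rw [image_union, sig_edge, sig_edge, rotL_zero, add_zero]

lemma exists_rot {t u v : L} (h : Pair t u v) :
    ∃ r, sig r t '' arcS = edge (ctr t) u ∪ edge (ctr t) v := by
  obtain ⟨hne, h⟩ := h
  obtain ⟨d, rfl⟩ : ∃ d, u = ctr t + d := ⟨u - ctr t, by abel⟩
  obtain ⟨e, rfl⟩ : ∃ e, v = ctr t + e := ⟨v - ctr t, by abel⟩
  have hne' : d ≠ e := by rintro rfl; exact hne rfl
  simp only [add_sub_cancel_left] at h
  simp only [sig_arcS]
  rcases h with ⟨h1 | h1 | h1, h2 | h2 | h2⟩ | ⟨h1 | h1 | h1, h2 | h2 | h2⟩ <;> subst h1 h2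
  · exact absurd rfl hne'
  · exact ⟨0, rfl⟩
  · exact ⟨4, by rw [union_comm]; rfl⟩
  · exact ⟨0, by rw [union_comm]; rfl⟩
  · exact absurd rfl hne'
  · exact ⟨2, rfl⟩
  · exact ⟨4, rfl⟩
  · exact ⟨2, by rw [union_comm]; rfl⟩
  · exact absurd rfl hne'
  · exact absurd rfl hne'
  · exact ⟨1, rfl⟩
  · exact ⟨5, by rw [union_comm]; rfl⟩
  · exact ⟨1, by rw [union_comm]; rfl⟩
  · exact absurd rfl hne'
  · exact ⟨3, rfl⟩
  · exact ⟨5, rfl⟩
  · exact ⟨3, by rw [union_comm]; rfl⟩
  · exact absurd rfl hne'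

/-- a path of tiles together with the corners through which it passes -/
structure Tour where
  /-- index set, all integers or the nonnegative ones -/
  D : Set ℤ
  hD : D = univ ∨ D = Ici 0
  /-- tiles -/
  t : ℤ → L
  /-- corners -/
  c : ℤ → L
  tinj : InjOn t D
  cinj : InjOn c D
  ok : ∀ k ∈ D, Pair (t k) (c k) (c (k + 1))

namespace Tour

variable (T : Tour)

/-- the carrier of a tour -/
noncomputable def carrier : Set ℂ :=
  ⋃ k ∈ T.D, (edge (ctr (T.t k)) (T.c k) ∪ edge (ctr (T.t k)) (T.c (k + 1)))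

/-- the vertices of a tour -/
def vert (m : ℤ) : L := if m % 2 = 0 then T.c (m / 2) else ctr (T.t (m / 2))

lemma half_mem {m : ℤ} : m / 2 ∈ T.D ↔ m ∈ T.D := by
  rcases T.hD with h | h
  · simp [h]
  · rw [h, mem_Ici, mem_Ici]; omega

lemma succ_mem {m : ℤ} (hm : m ∈ T.D) : m + 1 ∈ T.D := by
  rcases T.hD with h | h
  · simp [h]
  · rw [h, mem_Ici] at hm ⊢; omega

lemma vert_even (k : ℤ) : T.vert (2 * k) = T.c k := by
  unfold vert
  rw [if_pos (by omega)]
  congr 1
  omega

lemma vert_odd (k : ℤ) : T.vert (2 * k + 1) = ctr (T.t k) := by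
  unfold vert
  rw [if_neg (by omega)]
  congr 2
  omega

lemma ctr_inj {s t : L} (h : ctr s = ctr t) : s = t := by
  unfold ctr at h
  have h1 := congrArg Prod.fst h
  have h2 := congrArg Prod.snd h
  simp only at h1 h2
  ext <;> omega

lemma eta {t u v : L} (h : Pair t u v) : (u.2 - u.1) % 3 ≠ 0 := by
  obtain ⟨-, h⟩ := h
  obtain ⟨d, rfl⟩ : ∃ d, u = ctr t + d := ⟨u - ctr t, by abel⟩
  simp only [add_sub_cancel_left] at h
  rcases h with ⟨h1 | h1 | h1, -⟩ | ⟨h1 | h1 | h1, -⟩ <;> subst h1 <;> simp [ctr] <;> omega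

lemma unit_of_off {d : L} (h : OffA d ∨ OffB d) : IsUnit' d ∧ IsUnit' (-d) := by
  unfold IsUnit'
  rcases h with (h | h | h) | (h | h | h) <;> subst h <;> simp

lemma isPath : IsPath T.vert T.D := by
  have hpar : ∀ m : ℤ, ∃ k, m = 2 * k ∨ m = 2 * k + 1 := fun m => ⟨m / 2, by omega⟩
  have hmem0 : ∀ {k : ℤ}, 2 * k ∈ T.D → k ∈ T.D := by
    intro k hk
    have := T.half_mem.mpr hk
    rwa [show 2 * k / 2 = k by omega] at this
  have hmem1 : ∀ {k : ℤ}, 2 * k + 1 ∈ T.D → k ∈ T.D := by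
    intro k hk
    have := T.half_mem.mpr hk
    rwa [show (2 * k + 1) / 2 = k by omega] at this
  constructor
  · intro k hk
    exact T.succ_mem hk
  · intro m hm m' hm' e
    obtain ⟨k, rfl | rfl⟩ := hpar m <;> obtain ⟨k', rfl | rfl⟩ := hpar m'
    · rw [vert_even, vert_even] at e
      rw [T.cinj (hmem0 hm) (hmem0 hm') e]
    · exfalso
      rw [vert_even, vert_odd] at e
      have := eta (T.ok k (hmem0 hm))
      rw [e] at this
      simp only [ctr] at this
      omega
    · exfalso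
      rw [vert_even, vert_odd] at e
      have := eta (T.ok k' (hmem0 hm'))
      rw [← e] at this
      simp only [ctr] at this
      omega
    · rw [vert_odd, vert_odd] at e
      rw [T.tinj (hmem1 hm) (hmem1 hm') (ctr_inj e)]
  · intro m hm
    obtain ⟨k, rfl | rfl⟩ := hpar m
    · rw [vert_even, vert_odd]
      have := T.ok k (hmem0 hm)
      rw [← neg_sub]
      exact (unit_of_off (this.2.imp And.left And.left)).2
    · rw [show 2 * k + 1 + 1 = 2 * (k + 1) by ring, vert_even, vert_odd]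
      have := T.ok k (hmem1 hm)
      exact (unit_of_off (this.2.imp And.right And.right)).1

lemma carrier_eq : T.carrier = ⋃ m ∈ T.D, edge (T.vert m) (T.vert (m + 1)) := by
  unfold carrier
  ext z
  simp only [mem_iUnion, exists_prop]
  constructor
  · rintro ⟨k, hk, hz | hz⟩
    · refine ⟨2 * k, ?_, ?_⟩
      · rw [← half_mem, show 2 * k / 2 = k by omega]; exact hk
      · rw [vert_even, vert_odd, edge_comm]; exact hz
    · refine ⟨2 * k + 1, ?_, ?_⟩
      · rw [← half_mem, show (2 * k + 1) / 2 = k by omega]; exact hk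
      · rw [show 2 * k + 1 + 1 = 2 * (k + 1) by ring, vert_even, vert_odd]; exact hz
  · rintro ⟨m, hm, hz⟩
    refine ⟨m / 2, T.half_mem.mpr hm, ?_⟩
    rcases Int.emod_two_eq_zero_or_one m with h | h
    · left
      obtain ⟨k, rfl⟩ : ∃ k, m = 2 * k := ⟨m / 2, by omega⟩
      rw [vert_even, vert_odd, edge_comm] at hz
      rwa [show 2 * k / 2 = k by omega]
    · right
      obtain ⟨k, rfl⟩ : ∃ k, m = 2 * k + 1 := ⟨m / 2, by omega⟩
      rw [show 2 * k + 1 + 1 = 2 * (k + 1) by ring, vert_even, vert_odd] at hz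
      rwa [show (2 * k + 1) / 2 = k by omega]

lemma curve : IsUnboundedSimpleCurve T.carrier := by
  have hp := T.isPath
  rw [T.carrier_eq]
  rcases T.hD with h | h
  · rw [h] at hp ⊢
    rw [← poly_image_univ]
    exact hp.curve_univ
  · rw [h] at hp ⊢
    rw [← poly_image_Ici]
    exact hp.curve_Ici

lemma ctr_mem {k : ℤ} (hk : k ∈ T.D) : P (ctr (T.t k)) ∈ T.carrier := by
  unfold carrier
  refine mem_iUnion₂.mpr ⟨k, hk, Or.inl ⟨0, ⟨le_rfl, zero_le_one⟩, ?_⟩⟩
  simp

end Tour

theorem assemble {n : ℕ} (F : Fin n → Tour) (hcov : ∀ t, ∃ i, ∃ k ∈ (F i).D, (F i).t k = t)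
    (hdis : ∀ i j, i ≠ j → Disjoint (F i).carrier (F j).carrier) :
    ∃ σ : L → ℂ ≃ᵢ ℂ, IsTiling hexagon σ ∧ IsArmed n (markedSet σ {arcS}) := by
  have hex : ∀ t : L, ∃ r : ℕ, ∃ i, ∃ k ∈ (F i).D, (F i).t k = t ∧
      sig r t '' arcS = edge (ctr t) ((F i).c k) ∪ edge (ctr t) ((F i).c (k + 1)) := by
    intro t
    obtain ⟨i, k, hk, rfl⟩ := hcov t
    obtain ⟨r, hr⟩ := exists_rot ((F i).ok k hk)
    exact ⟨r, i, k, hk, rfl, hr⟩
  choose r ix kx hkx htx hrx using hex
  have huniq : ∀ i k, k ∈ (F i).D → ix ((F i).t k) = i ∧ kx ((F i).t k) = k := by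
    intro i k hk
    have hi : ix ((F i).t k) = i := by
      by_contra hne
      have h1 := (F i).ctr_mem hk
      have h2 := (F (ix ((F i).t k))).ctr_mem (hkx ((F i).t k))
      rw [htx] at h2
      exact disjoint_left.mp (hdis _ _ hne) h2 h1
    refine ⟨hi, ?_⟩
    have h1 := hkx ((F i).t k)
    have h2 := htx ((F i).t k)
    rw [hi] at h1 h2
    exact (F i).tinj h1 hk h2
  refine ⟨fun t => sig (r t) t, isTiling_sig r, ?_⟩
  refine armed_of_family (fun i => (F i).carrier) ?_ (fun i j hij => hdis i j hij)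
    (fun i => (F i).curve)
  unfold markedSet
  simp only [mem_singleton_iff, iUnion_iUnion_eq_left]
  ext z
  rw [mem_iUnion, mem_iUnion]
  constructor
  · rintro ⟨t, ht⟩
    rw [hrx] at ht
    refine ⟨ix t, ?_⟩
    unfold Tour.carrier
    refine mem_iUnion₂.mpr ⟨kx t, hkx t, ?_⟩
    rw [htx t]
    exact ht
  · rintro ⟨i, hi⟩
    unfold Tour.carrier at hi
    obtain ⟨k, hk, hz⟩ := mem_iUnion₂.mp hi
    refine ⟨(F i).t k, ?_⟩
    rw [hrx, (huniq i k hk).1, (huniq i k hk).2]
    exact hz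

/-- the marked arc is an arc -/
lemma isArc_arcS : IsArc arcS := by
  let p : ℤ → L := fun k => if k ≤ 1 then (1 - k, 0) else (1 - k, k - 1)
  have hp : IsPath p univ := by
    constructor
    · intro k _; trivial
    · intro a _ b _ e
      simp only [p] at e
      split_ifs at e <;> simp only [Prod.mk.injEq] at e <;> omega
    · intro k _
      simp only [p]
      unfold IsUnit'
      split_ifs with h1 h2 h2 <;> simp only [Prod.mk_sub_mk, Prod.mk.injEq] <;> omega
  let f : unitInterval → ℂ := fun x => poly p (2 * x)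
  have hf : Continuous f := (poly_continuous p).comp (by fun_prop)
  have hinj : Function.Injective f := by
    intro x y e
    have := hp.poly_inj (mem_univ _) (mem_univ _) e
    exact Subtype.ext (by linarith)
  have hemb := (hf.isClosedEmbedding hinj).isEmbedding
  have hrange : range f = arcS := by
    have h1 : range f = poly p '' (Icc (((0 : ℤ) : ℝ)) ((0 : ℤ) + 1)) ∪
        poly p '' (Icc (((1 : ℤ) : ℝ)) ((1 : ℤ) + 1)) := by
      ext z
      constructor
      · rintro ⟨x, rfl⟩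
        have h0 := x.2.1
        have h1 := x.2.2
        rcases le_total (2 * (x : ℝ)) 1 with h | h
        · left
          exact ⟨2 * x, ⟨by push_cast; linarith, by push_cast; linarith⟩, rfl⟩
        · right
          exact ⟨2 * x, ⟨by push_cast; linarith, by push_cast; linarith⟩, rfl⟩
      · rintro (⟨y, ⟨h0, h1⟩, rfl⟩ | ⟨y, ⟨h0, h1⟩, rfl⟩)
        · push_cast at h0 h1
          refine ⟨⟨y / 2, by linarith, by linarith⟩, ?_⟩
          simp only [f]
          congr 1; ring
        · push_cast at h0 h1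
          refine ⟨⟨y / 2, by linarith, by linarith⟩, ?_⟩
          simp only [f]
          congr 1; ring
    rw [h1, poly_image_Icc, poly_image_Icc]
    unfold arcS
    have e0 : p 0 = (1, 0) := rfl
    have e1 : p 1 = 0 := rfl
    have e2 : p 2 = (-1, 1) := rfl
    rw [show (0 : ℤ) + 1 = 1 from rfl, show (1 : ℤ) + 1 = 2 from rfl, e0, e1, e2, edge_comm]
  exact ⟨(Homeomorph.setCongr hrange.symm).trans hemb.toHomeomorph.symm⟩

lemma arcS_sub : arcS ⊆ hexagon := by
  rw [hexagon_eq]
  unfold arcS edge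
  rintro z (⟨s, ⟨h0, h1⟩, rfl⟩ | ⟨s, ⟨h0, h1⟩, rfl⟩)
  · simp only
    rw [edge_point, mem_HexC]
    simp only [abs_le]
    norm_num
    exact ⟨by linarith, by linarith⟩
  · simp only
    rw [edge_point, mem_HexC]
    simp only [abs_le]
    norm_num
    refine ⟨⟨by linarith, by linarith⟩, ⟨by linarith, by linarith⟩⟩

end H71Hex
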