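import Mathlib
import Pool.Agent.H71.Hex.Defs
import Pool.Agent.H71.Hex.Geom
import Pool.Agent.H71.Hex.Poly
import Pool.Agent.H71.Hex.Comp
import Pool.Agent.H71.Hex.Tiling
import Pool.Agent.H71.Hex.Tour

open Set Topology Filter

namespace H71Hex

/-- a corner of type A -/
def W (x y : ℤ) : L := (x - y, x + 2 * y - 1)

/-- the corner of type A shared by two adjacent tiles -/
def kap (s t : L) : L := W (max s.1 t.1) (max s.2 t.2)

/-- adjacent tiles -/
def Adj (s t : L) : Prop :=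
  t = (s.1 + 1, s.2) ∨ t = (s.1 - 1, s.2) ∨ t = (s.1, s.2 + 1) ∨ t = (s.1, s.2 - 1) ∨
    t = (s.1 + 1, s.2 - 1) ∨ t = (s.1 - 1, s.2 + 1)

lemma kap_comm (s t : L) : kap s t = kap t s := by
  unfold kap
  rw [max_comm, max_comm s.2]

lemma Adj.symm {s t : L} (h : Adj s t) : Adj t s := by
  obtain ⟨x, y⟩ := s
  unfold Adj at *
  rcases h with rfl | rfl | rfl | rfl | rfl | rfl <;> simp

lemma kap_off {s t : L} (h : Adj s t) : OffA (kap s t - ctr s) := by
  obtain ⟨x, y⟩ := s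
  unfold kap W ctr OffA
  rcases h with rfl | rfl | rfl | rfl | rfl | rfl <;> simp only [Prod.mk_sub_mk, Prod.mk.injEq] <;>
    omega

lemma kap_off' {s t : L} (h : Adj s t) : OffA (kap s t - ctr t) := by
  rw [kap_comm]
  exact kap_off h.symm

/-- successor in the half-plane snake -/
def nx (t : L) : L :=
  if t.2 < 0 then t
  else if 0 < t.1 then
    (if (t.1 + t.2) % 2 = 1 then (t.1 - 1, t.2 + 1)
      else if 0 < t.2 then (t.1 + 1, t.2 - 1) else (t.1 + 1, t.2))
  else if -t.1 < t.2 then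
    (if t.2 % 2 = 1 then (t.1 - 1, t.2)
      else if t.1 < 0 then (t.1 + 1, t.2) else (t.1 + 1, t.2 - 1))
  else if t.1 = 0 then (t.1 + 1, t.2)
  else if t.1 % 2 = 1 then
    (if 0 < t.2 then (t.1, t.2 - 1) else (t.1 - 1, t.2))
  else (if t.2 = - t.1 then (t.1 + 1, t.2) else (t.1, t.2 + 1))

lemma nx_inj : Function.Injective nx := by
  rintro ⟨x, y⟩ ⟨x', y'⟩ h
  unfold nx at h
  simp only at h
  split_ifs at h <;> simp only [Prod.mk.injEq] at h ⊢ <;> omega

lemma nx_adj (t : L) (h : 0 ≤ t.2) : Adj t (nx t) := by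
  obtain ⟨x, y⟩ := t
  unfold nx Adj
  simp only at h ⊢
  split_ifs <;> first | (simp; done) | (exfalso; omega)

lemma nx_nonneg (t : L) (h : 0 ≤ t.2) : 0 ≤ (nx t).2 := by
  obtain ⟨x, y⟩ := t
  unfold nx
  simp only at h ⊢
  split_ifs <;> simp only <;> omega

lemma nx_ne (t : L) : nx t ≠ (0, 0) := by
  obtain ⟨x, y⟩ := t
  unfold nx
  simp only
  split_ifs <;> simp only [ne_eq, Prod.mk.injEq] <;> omega

lemma kap_nx_ne (t : L) (h : 0 ≤ t.2) : kap t (nx t) ≠ W 0 0 := by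
  obtain ⟨x, y⟩ := t
  unfold nx kap W
  simp only at h ⊢
  split_ifs <;> simp only [ne_eq, Prod.mk.injEq] <;> omega

/-- explicit form of the corner -/
lemma kap_nx_inj {s t : L} (hs : 0 ≤ s.2) (ht : 0 ≤ t.2) (h : kap s (nx s) = kap t (nx t)) :
    s = t := by
  obtain ⟨x, y⟩ := s
  obtain ⟨x', y'⟩ := t
  have hW : ∀ a b c d : ℤ, W a b = W c d → a = c ∧ b = d := by
    intro a b c d h
    simp only [W, Prod.mk.injEq] at h
    constructor <;> omega
  obtain ⟨h1, h2⟩ := hW _ _ _ _ h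
  clear h hW
  unfold nx at h1 h2
  simp only at h1 h2 hs ht
  rw [Prod.mk.injEq]
  split_ifs at h1 h2 <;> simp only at h1 h2 <;> omega

end H71Hex
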