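import Mathlib
import Pool.Agent.H71.Hex.Snake

open Set Topology Filter

namespace H71Hex

/-- successor in the double spiral -/
def dn (t : L) : L :=
  if 0 ≤ t.2 then
    (if 0 ≤ t.1 then (t.1 - 1, t.2 + 1)
      else if -t.2 < t.1 then (t.1 - 1, t.2)
      else if 0 < t.2 then (t.1, t.2 - 1) else (t.1 + 1, t.2 - 1))
  else
    (if t.1 < 0 then (t.1 + 1, t.2 - 1)
      else if t.1 ≤ -t.2 then (t.1 + 1, t.2) else (t.1, t.2 + 1))

lemma dn_inj : Function.Injective dn := by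
  rintro ⟨x, y⟩ ⟨x', y'⟩ h
  unfold dn at h
  simp only at h
  split_ifs at h <;> simp only [Prod.mk.injEq] at h ⊢ <;> omega

lemma dn_adj (t : L) : Adj t (dn t) := by
  obtain ⟨x, y⟩ := t
  unfold dn Adj
  simp only
  split_ifs <;> simp

lemma dn_ne (t : L) : dn t ≠ (0, 0) ∧ dn t ≠ (1, 0) := by
  obtain ⟨x, y⟩ := t
  unfold dn
  simp only
  split_ifs <;> simp only [ne_eq, Prod.mk.injEq] <;> omega

lemma kap_dn_ne (t : L) : kap t (dn t) ≠ W 1 0 := by
  obtain ⟨x, y⟩ := t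
  unfold dn kap W
  simp only
  split_ifs <;> simp only [ne_eq, Prod.mk.injEq] <;> omega

lemma kap_dn_inj {s t : L} (h : kap s (dn s) = kap t (dn t)) : s = t := by
  obtain ⟨x, y⟩ := s
  obtain ⟨x', y'⟩ := t
  have hW : ∀ a b c d : ℤ, W a b = W c d → a = c ∧ b = d := by
    intro a b c d h
    simp only [W, Prod.mk.injEq] at h
    constructor <;> omega
  obtain ⟨h1, h2⟩ := hW _ _ _ _ h
  clear h hW
  unfold dn at h1 h2
  simp only at h1 h2
  rw [Prod.mk.injEq]
  split_ifs at h1 h2 <;> simp only at h1 h2 <;> omega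

/-- turn number -/
def turn (t : L) : ℤ :=
  if 0 ≤ t.2 then
    (if 0 ≤ t.1 then t.1 + t.2 else if -t.1 ≤ t.2 then t.2 - 1 else -t.1 - 1)
  else
    (if t.1 < 0 then -t.1 - t.2 - 1 else if t.1 ≤ -t.2 + 1 then -t.2 - 1 else t.1 - 2)

/-- position in the turn -/
def tpos (t : L) : ℤ :=
  if 0 ≤ t.2 then
    (if 0 ≤ t.1 then t.2 else if -t.1 ≤ t.2 then turn t - t.1 else 3 * turn t + 2 - t.2)
  else
    (if t.1 < 0 then 4 * turn t + 3 + t.1 else if t.1 ≤ -t.2 + 1 then 4 * turn t + 3 + t.1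
      else 6 * turn t + 6 + t.2)

lemma turn_nonneg (t : L) : 0 ≤ turn t ∧ 0 ≤ tpos t := by
  obtain ⟨x, y⟩ := t
  unfold tpos turn
  simp only
  split_ifs <;> constructor <;> omega

/-- explicit predecessor -/
def dp (t : L) : L :=
  if 0 ≤ t.2 then
    (if 0 ≤ t.1 then (if t.2 = 0 then (t.1, t.2 - 1) else (t.1 + 1, t.2 - 1))
      else if t.1 = -1 ∧ 0 < t.2 then (t.1 + 1, t.2 - 1)
      else if -t.1 ≤ t.2 then (t.1 + 1, t.2)
      else (t.1, t.2 + 1))
  else
    (if t.1 ≤ 0 then (t.1 - 1, t.2 + 1)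
      else if t.1 ≤ -t.2 + 1 then (t.1 - 1, t.2) else (t.1, t.2 - 1))

lemma dp_spec (t : L) (h0 : t ≠ (0, 0)) (h1 : t ≠ (1, 0)) :
    dn (dp t) = t ∧
      (turn (dp t) < turn t ∨ (turn (dp t) = turn t ∧ tpos (dp t) < tpos t)) := by
  obtain ⟨x, y⟩ := t
  simp only [ne_eq, Prod.mk.injEq] at h0 h1
  refine ⟨?_, ?_⟩
  · unfold dp
    simp only
    split_ifs <;> unfold dn <;> simp only <;> split_ifs <;>
      simp only [Prod.mk.injEq, and_true, true_and] <;> omega
  · unfold dp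
    simp only
    split_ifs <;> unfold tpos turn <;> simp only <;> split_ifs <;> omega

lemma dn_reach (t : L) : (∃ k : ℕ, dn^[k] (0, 0) = t) ∨ ∃ k : ℕ, dn^[k] (1, 0) = t := by
  have key : ∀ N M : ℕ, ∀ t : L, turn t = N → tpos t = M →
      (∃ k : ℕ, dn^[k] (0, 0) = t) ∨ ∃ k : ℕ, dn^[k] (1, 0) = t := by
    intro N
    induction N using Nat.strong_induction_on with
    | _ N ihN =>
      intro M
      induction M using Nat.strong_induction_on with
      | _ M ihM =>
        intro t hN hM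
        by_cases h0 : t = (0, 0)
        · exact Or.inl ⟨0, h0.symm⟩
        by_cases h1 : t = (1, 0)
        · exact Or.inr ⟨0, h1.symm⟩
        obtain ⟨h2, h3⟩ := dp_spec t h0 h1
        obtain ⟨r0, p0⟩ := turn_nonneg (dp t)
        have : (∃ k : ℕ, dn^[k] (0, 0) = dp t) ∨ ∃ k : ℕ, dn^[k] (1, 0) = dp t := by
          rcases h3 with h3 | ⟨h3, h4⟩
          · exact ihN (turn (dp t)).toNat (by omega) (tpos (dp t)).toNat (dp t) (by omega)
              (by omega)
          · exact ihM (tpos (dp t)).toNat (by omega) (dp t) (by omega) (by omega)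
        rcases this with ⟨k, hk⟩ | ⟨k, hk⟩
        · exact Or.inl ⟨k + 1, by rw [Function.iterate_succ_apply', hk, h2]⟩
        · exact Or.inr ⟨k + 1, by rw [Function.iterate_succ_apply', hk, h2]⟩
  obtain ⟨r0, p0⟩ := turn_nonneg t
  exact key (turn t).toNat (tpos t).toNat t (by omega) (by omega)

end H71Hex
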