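import Mathlib
import Pool.Agent.H71.Hex.Snake

open Set Topology Filter

namespace H71Hex

/-- ring number -/
def ring (t : L) : ℤ := if 0 < t.1 then t.1 + t.2 else if -t.1 < t.2 then t.2 else -t.1

/-- position in the ring, counterclockwise -/
def cpos (t : L) : ℤ :=
  if 0 < t.1 then t.2 else if -t.1 < t.2 then t.2 - t.1 else -3 * t.1 - t.2

/-- position in the ring along the snake -/
def pos (t : L) : ℤ := if ring t % 2 = 1 then cpos t else 3 * ring t - cpos t

lemma ring_pos_nonneg (t : L) (h : 0 ≤ t.2) : 0 ≤ ring t ∧ 0 ≤ pos t := by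
  obtain ⟨x, y⟩ := t
  unfold pos ring cpos
  simp only at h ⊢
  split_ifs <;> constructor <;> omega

/-- explicit predecessor -/
def pv (t : L) : L :=
  if 0 < t.1 then
    (if (t.1 + t.2) % 2 = 1 then (if 0 < t.2 then (t.1 + 1, t.2 - 1) else (t.1 - 1, t.2))
      else (t.1 - 1, t.2 + 1))
  else if -t.1 < t.2 then
    (if t.2 % 2 = 1 then (if t.1 < 0 then (t.1 + 1, t.2) else (t.1 + 1, t.2 - 1))
      else (t.1 - 1, t.2))
  else if t.1 % 2 = 1 then
    (if t.2 = -t.1 then (t.1 + 1, t.2) else (t.1, t.2 + 1))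
  else (if 0 < t.2 then (t.1, t.2 - 1) else (t.1 + 1, t.2))

lemma pv_spec (t : L) (h : 0 ≤ t.2) (h0 : t ≠ (0, 0)) :
    0 ≤ (pv t).2 ∧ nx (pv t) = t ∧
      (ring (pv t) < ring t ∨ (ring (pv t) = ring t ∧ pos (pv t) < pos t)) := by
  obtain ⟨x, y⟩ := t
  simp only [ne_eq, Prod.mk.injEq] at h h0
  refine ⟨?_, ?_, ?_⟩
  · unfold pv
    simp only
    split_ifs <;> simp only <;> omega
  · unfold pv
    simp only
    split_ifs <;> unfold nx <;> simp only <;> split_ifs <;>
      simp only [Prod.mk.injEq, and_true, true_and] <;> omega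
  · unfold pv
    simp only
    split_ifs <;> unfold pos ring cpos <;> simp only <;> split_ifs <;> omega

lemma nx_reach (t : L) (h : 0 ≤ t.2) : ∃ k : ℕ, nx^[k] (0, 0) = t := by
  have key : ∀ N M : ℕ, ∀ t : L, 0 ≤ t.2 → ring t = N → pos t = M → ∃ k : ℕ, nx^[k] (0, 0) = t := by
    intro N
    induction N using Nat.strong_induction_on with
    | _ N ihN =>
      intro M
      induction M using Nat.strong_induction_on with
      | _ M ihM =>
        intro t ht hN hM
        by_cases h0 : t = (0, 0)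
        · exact ⟨0, h0.symm⟩
        · obtain ⟨h1, h2, h3⟩ := pv_spec t ht h0
          obtain ⟨r0, p0⟩ := ring_pos_nonneg _ h1
          have : ∃ k : ℕ, nx^[k] (0, 0) = pv t := by
            rcases h3 with h3 | ⟨h3, h4⟩
            · exact ihN (ring (pv t)).toNat (by omega) (pos (pv t)).toNat (pv t) h1 (by omega)
                (by omega)
            · exact ihM (pos (pv t)).toNat (by omega) (pv t) h1 (by omega) (by omega)
          obtain ⟨k, hk⟩ := this
          exact ⟨k + 1, by rw [Function.iterate_succ_apply', hk, h2]⟩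
  obtain ⟨r0, p0⟩ := ring_pos_nonneg _ h
  exact key (ring t).toNat (pos t).toNat t h (by omega) (by omega)

end H71Hex
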