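import Mathlib
import Pool.Agent.H71.Hex.Reach

open Set Topology Filter

namespace H71Hex

lemma orbit_inj {α : Type} {f : α → α} (hf : Function.Injective f) {a b : α} (ha : ∀ s, f s ≠ a)
    (hb : ∀ s, f s ≠ b) {k j : ℕ} (h : f^[k] a = f^[j] b) : k = j ∧ a = b := by
  induction k generalizing j with
  | zero =>
    cases j with
    | zero => exact ⟨rfl, h⟩
    | succ j =>
      rw [Function.iterate_succ_apply'] at h
      exact absurd h.symm (ha _)
  | succ k ih =>
    cases j with
    | zero =>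
      rw [Function.iterate_succ_apply'] at h
      exact absurd h (hb _)
    | succ j =>
      rw [Function.iterate_succ_apply', Function.iterate_succ_apply'] at h
      obtain ⟨h1, h2⟩ := ih (hf h)
      exact ⟨by rw [h1], h2⟩

/-- tiles of the snake -/
def st (k : ℤ) : L := nx^[k.toNat] (0, 0)

/-- corners of the snake -/
def sc (k : ℤ) : L := if k ≤ 0 then W 0 0 else kap (st (k - 1)) (st k)

lemma st_succ {k : ℤ} (hk : 0 ≤ k) : st (k + 1) = nx (st k) := by
  unfold st
  rw [show (k + 1).toNat = k.toNat + 1 by omega, Function.iterate_succ_apply']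

lemma st_nonneg (k : ℤ) : 0 ≤ (st k).2 := by
  unfold st
  generalize k.toNat = m
  induction m with
  | zero => simp
  | succ m ih => rw [Function.iterate_succ_apply']; exact nx_nonneg _ ih

lemma sc_succ {k : ℤ} (hk : 0 ≤ k) : sc (k + 1) = kap (st k) (nx (st k)) := by
  unfold sc
  rw [if_neg (by omega), add_sub_cancel_right, st_succ hk]

lemma st_inj : InjOn st (Ici 0) := by
  intro k hk j hj h
  have := (orbit_inj nx_inj (fun s => nx_ne s) (fun s => nx_ne s) h).1
  simp only [mem_Ici] at hk hj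
  omega

lemma sc_inj : InjOn sc (Ici 0) := by
  intro k hk j hj h
  simp only [mem_Ici] at hk hj
  rcases hk.eq_or_lt with rfl | hk'
  · rcases hj.eq_or_lt with rfl | hj'
    · rfl
    · exfalso
      obtain ⟨j, rfl⟩ : ∃ i, j = i + 1 := ⟨j - 1, by ring⟩
      rw [sc_succ (by omega)] at h
      exact kap_nx_ne _ (st_nonneg j) h.symm
  · rcases hj.eq_or_lt with rfl | hj'
    · exfalso
      obtain ⟨k, rfl⟩ : ∃ i, k = i + 1 := ⟨k - 1, by ring⟩
      rw [sc_succ (by omega)] at h
      exact kap_nx_ne _ (st_nonneg k) h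
    · obtain ⟨j, rfl⟩ : ∃ i, j = i + 1 := ⟨j - 1, by ring⟩
      obtain ⟨k, rfl⟩ : ∃ i, k = i + 1 := ⟨k - 1, by ring⟩
      rw [sc_succ (by omega), sc_succ (by omega)] at h
      have := st_inj (by simp only [mem_Ici]; omega) (by simp only [mem_Ici]; omega)
        (kap_nx_inj (st_nonneg _) (st_nonneg _) h)
      omega

/-- the half-plane snake -/
def snake : Tour where
  D := Ici 0
  hD := Or.inr rfl
  t := st
  c := sc
  tinj := st_inj
  cinj := sc_inj
  ok := by
    intro k hk
    refine ⟨?_, Or.inl ⟨?_, ?_⟩⟩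
    · intro h
      simp only [mem_Ici] at hk
      have := sc_inj (by simp only [mem_Ici]; omega) (by simp only [mem_Ici]; omega) h
      omega
    · simp only [mem_Ici] at hk
      rcases hk.eq_or_lt with rfl | hk'
      · simp [sc, st, W, ctr, OffA]
      · obtain ⟨k, rfl⟩ : ∃ i, k = i + 1 := ⟨k - 1, by ring⟩
        rw [sc_succ (by omega), st_succ (by omega)]
        exact kap_off' (nx_adj _ (st_nonneg k))
    · rw [sc_succ hk]
      exact kap_off (nx_adj _ (st_nonneg k))

/-- a row of tiles -/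
def row (y : ℤ) : Tour where
  D := univ
  hD := Or.inl rfl
  t k := (k, y)
  c k := W k y
  tinj := by
    intro k _ j _ h
    simpa using h
  cinj := by
    intro k _ j _ h
    simp only [W, Prod.mk.injEq] at h
    omega
  ok := by
    intro k _
    refine ⟨?_, Or.inl ⟨?_, ?_⟩⟩
    · simp only [W, ne_eq, Prod.mk.injEq]
      omega
    · unfold W ctr OffA
      simp only [Prod.mk_sub_mk, Prod.mk.injEq]
      omega
    · unfold W ctr OffA
      simp only [Prod.mk_sub_mk, Prod.mk.injEq]
      omega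

lemma off_neg {d : L} (h : OffA d) : OffB (-d) := by
  unfold OffB
  rcases h with rfl | rfl | rfl <;> simp

lemma off_neg' {d : L} (h : OffB d) : OffA (-d) := by
  unfold OffA
  rcases h with rfl | rfl | rfl <;> simp

/-- point reflection of a tour -/
def Tour.reflect (T : Tour) (m : ℤ) : Tour where
  D := T.D
  hD := T.hD
  t k := (-(T.t k).1, m - (T.t k).2)
  c k := -(T.c k) + (-m, 2 * m)
  tinj := by
    intro k hk j hj h
    apply T.tinj hk hj
    simp only [Prod.mk.injEq] at h
    ext <;> omega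
  cinj := by
    intro k hk j hj h
    apply T.cinj hk hj
    simpa using h
  ok := by
    intro k hk
    obtain ⟨h1, h2⟩ := T.ok k hk
    have e : ∀ u : L, -u + (-m, 2 * m) - ctr (-(T.t k).1, m - (T.t k).2) =
        -(u - ctr (T.t k)) := by
      intro u
      unfold ctr
      ext <;> simp <;> ring
    refine ⟨by simpa using h1, ?_⟩
    rw [e, e]
    rcases h2 with ⟨a, b⟩ | ⟨a, b⟩
    · exact Or.inr ⟨off_neg a, off_neg b⟩
    · exact Or.inl ⟨off_neg' a, off_neg' b⟩

lemma Tour.carrier_bound (T : Tour) (φ : ℝ → Prop) (hφ : Convex ℝ {x | φ x})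
    (h : ∀ k ∈ T.D, φ ((ctr (T.t k)).2 - (ctr (T.t k)).1) ∧ φ ((T.c k).2 - (T.c k).1)) {a b : ℝ}
    (hab : Q a b ∈ T.carrier) : φ (b - a) := by
  unfold Tour.carrier at hab
  obtain ⟨k, hk, hz⟩ := mem_iUnion₂.mp hab
  have key : ∀ u v : L, φ (u.2 - u.1) → φ (v.2 - v.1) → Q a b ∈ edge u v → φ (b - a) := by
    rintro u v hu hv ⟨s, ⟨h0, h1⟩, he⟩
    simp only at he
    rw [edge_point] at he
    obtain ⟨e1, e2⟩ := Q_inj he
    have := hφ hu hv (sub_nonneg.mpr h1) h0 (by ring)
    have h2 : (1 - s) • ((u.2 : ℝ) - u.1) + s • ((v.2 : ℝ) - v.1) = b - a := by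
      rw [← e1, ← e2]
      simp only [smul_eq_mul]
      ring
    rw [h2] at this
    exact this
  rcases hz with hz | hz
  · exact key _ _ (h k hk).1 (h k hk).2 hz
  · exact key _ _ (h k hk).1 (h _ (T.succ_mem hk)).2 hz

/-- the family of tours for `n ≥ 2` -/
def fam (n : ℕ) (i : Fin n) : Tour :=
  if i.1 = 0 then snake else if i.1 = n - 1 then snake.reflect (-(n - 1 : ℤ)) else row (-i.1)

lemma sc_ge (k : ℤ) : (-1 : ℤ) ≤ (sc k).2 - (sc k).1 := by
  unfold sc
  split_ifs with h
  · simp [W]
  · have := st_nonneg (k - 1)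
    have := st_nonneg k
    simp only [kap, W]
    omega

lemma fam_ge {n : ℕ} (i : Fin n) (hi : i.1 < n - 1) {a b : ℝ} (h : Q a b ∈ (fam n i).carrier) :
    (-3 * i.1 - 1 : ℝ) ≤ b - a := by
  refine Tour.carrier_bound _ (fun x => (-3 * i.1 - 1 : ℝ) ≤ x) (convex_Ici _) ?_ h
  unfold fam
  split_ifs with h0
  · intro k hk
    rw [h0]
    constructor
    · have h1 := st_nonneg k
      have : (0 : ℝ) ≤ (st k).2 := by exact_mod_cast h1
      simp only [snake, ctr]
      push_cast
      linarith
    · have h1 := sc_ge k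
      have : ((-1 : ℤ) : ℝ) ≤ (((sc k).2 - (sc k).1 : ℤ) : ℝ) := by exact_mod_cast h1
      simp only [snake]
      push_cast at this ⊢
      linarith
  · omega
  · intro k hk
    simp only [row, ctr, W]
    push_cast
    constructor <;> linarith

lemma fam_le {n : ℕ} (i : Fin n) (hi : 0 < i.1) {a b : ℝ} (h : Q a b ∈ (fam n i).carrier) :
    b - a ≤ (-3 * i.1 + 1 : ℝ) := by
  refine Tour.carrier_bound _ (fun x => x ≤ (-3 * i.1 + 1 : ℝ)) (convex_Iic _) ?_ h
  have hn : 1 ≤ n := by have := i.2; omega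
  unfold fam
  split_ifs with h0 h1
  · omega
  · intro k hk
    have hir : (i.1 : ℝ) = n - 1 := by rw [h1]; push_cast [hn]; ring
    rw [hir]
    constructor
    · have h1 := st_nonneg k
      have : (0 : ℝ) ≤ (st k).2 := by exact_mod_cast h1
      simp only [snake, ctr, Tour.reflect]
      push_cast
      linarith
    · have h1 := sc_ge k
      have : ((-1 : ℤ) : ℝ) ≤ (((sc k).2 - (sc k).1 : ℤ) : ℝ) := by exact_mod_cast h1
      simp only [snake, Tour.reflect, Prod.fst_add, Prod.snd_add, Prod.fst_neg, Prod.snd_neg]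
      push_cast at this ⊢
      linarith
  · intro k hk
    simp only [row, ctr, W]
    push_cast
    constructor <;> linarith

lemma fam_disjoint {n : ℕ} (i j : Fin n) (hij : i ≠ j) :
    Disjoint (fam n i).carrier (fam n j).carrier := by
  have key : ∀ i j : Fin n, i.1 < j.1 → Disjoint (fam n i).carrier (fam n j).carrier := by
    intro i j h
    rw [disjoint_left]
    intro z h1 h2
    obtain ⟨a, b, rfl⟩ := Q_surj z
    have e1 := fam_ge i (by have := j.2; omega) h1
    have e2 := fam_le j (by omega) h2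
    have : (i.1 : ℝ) + 1 ≤ j.1 := by exact_mod_cast h
    linarith
  rcases lt_trichotomy i.1 j.1 with h | h | h
  · exact key i j h
  · exact absurd (Fin.ext h) hij
  · exact (key j i h).symm

lemma fam_cover {n : ℕ} (hn : 2 ≤ n) (t : L) : ∃ i, ∃ k ∈ (fam n i).D, (fam n i).t k = t := by
  obtain ⟨x, y⟩ := t
  rcases le_or_gt 0 y with h | h
  · obtain ⟨k, hk⟩ := nx_reach (x, y) h
    refine ⟨⟨0, by omega⟩, k, ?_, ?_⟩
    · simp [fam, snake]
    · simp only [fam, if_true, snake, st, Int.toNat_natCast]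
      exact hk
  · rcases le_or_gt y (-(n - 1 : ℤ)) with h' | h'
    · obtain ⟨k, hk⟩ := nx_reach (-x, -(n - 1 : ℤ) - y) (by simp only; omega)
      refine ⟨⟨n - 1, by omega⟩, k, ?_, ?_⟩
      · have : n - 1 ≠ 0 := by omega
        simp [fam, snake, Tour.reflect, this]
      · have : n - 1 ≠ 0 := by omega
        simp only [fam, if_neg this, if_true, snake, Tour.reflect, st, Int.toNat_natCast]
        rw [hk]
        simp
    · refine ⟨⟨(-y).toNat, by omega⟩, x, ?_, ?_⟩
      · have h1 : (-y).toNat ≠ 0 := by omega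
        have h2 : (-y).toNat ≠ n - 1 := by omega
        simp only [fam, if_neg h1, if_neg h2, row]
        trivial
      · have h1 : (-y).toNat ≠ 0 := by omega
        have h2 : (-y).toNat ≠ n - 1 := by omega
        simp only [fam, if_neg h1, if_neg h2, row, Prod.mk.injEq, true_and]
        omega

theorem many {n : ℕ} (hn : 2 ≤ n) :
    ∃ σ : L → ℂ ≃ᵢ ℂ, IsTiling hexagon σ ∧ IsArmed n (markedSet σ {arcS}) :=
  assemble (fam n) (fam_cover hn) fam_disjoint

end H71Hex
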