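import Mathlib
import Pool.Agent.H71.Hex.DSpiral
import Pool.Agent.H71.Hex.Many

open Set Topology Filter

namespace H71Hex

/-- tiles of the double spiral -/
def dt (k : ℤ) : L := if 1 ≤ k then dn^[(k - 1).toNat] (1, 0) else dn^[(-k).toNat] (0, 0)

/-- corners of the double spiral -/
def dc (k : ℤ) : L :=
  if 2 ≤ k then kap (dt (k - 1)) (dn (dt (k - 1))) else if k = 1 then W 1 0
    else kap (dt k) (dn (dt k))

lemma dt_succ {k : ℤ} (hk : 1 ≤ k) : dt (k + 1) = dn (dt k) := by
  unfold dt
  rw [if_pos (by omega), if_pos hk, show (k + 1 - 1).toNat = (k - 1).toNat + 1 by omega,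
    Function.iterate_succ_apply']

lemma dt_pred {k : ℤ} (hk : k < 0) : dt k = dn (dt (k + 1)) := by
  unfold dt
  rw [if_neg (by omega), if_neg (by omega), show (-k).toNat = (-(k + 1)).toNat + 1 by omega,
    Function.iterate_succ_apply']

lemma dt_inj : Function.Injective dt := by
  intro k j h
  unfold dt at h
  split_ifs at h with h1 h2 h2
  · have := (orbit_inj dn_inj (fun s => (dn_ne s).2) (fun s => (dn_ne s).2) h).1
    omega
  · have := (orbit_inj dn_inj (fun s => (dn_ne s).2) (fun s => (dn_ne s).1) h).2
    simp at this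
  · have := (orbit_inj dn_inj (fun s => (dn_ne s).1) (fun s => (dn_ne s).2) h).2
    simp at this
  · have := (orbit_inj dn_inj (fun s => (dn_ne s).1) (fun s => (dn_ne s).1) h).1
    omega

lemma dc_inj : Function.Injective dc := by
  intro k j h
  unfold dc at h
  split_ifs at h with h1 h2 h2 h2 h3 h3 h3 h4 h4
  all_goals first
  | omega
  | exact absurd h (kap_dn_ne _)
  | exact absurd h.symm (kap_dn_ne _)
  | (have := dt_inj (kap_dn_inj h); omega)

/-- the double spiral -/
def dspiral : Tour where
  D := univ
  hD := Or.inl rfl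
  t := dt
  c := dc
  tinj := dt_inj.injOn
  cinj := dc_inj.injOn
  ok := by
    intro k _
    refine ⟨?_, Or.inl ⟨?_, ?_⟩⟩
    · intro h
      have := dc_inj h
      omega
    · rcases lt_trichotomy k 1 with h | rfl | h
      · unfold dc
        rw [if_neg (by omega), if_neg (by omega)]
        exact kap_off (dn_adj _)
      · simp [dc, dt, W, ctr, OffA]
      · obtain ⟨j, rfl⟩ : ∃ j, k = j + 1 := ⟨k - 1, by ring⟩
        unfold dc
        rw [if_pos (by omega), add_sub_cancel_right, dt_succ (by omega)]
        exact kap_off' (dn_adj _)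
    · rcases lt_trichotomy k 0 with h | rfl | h
      · unfold dc
        rw [if_neg (by omega), if_neg (by omega), dt_pred h]
        exact kap_off' (dn_adj _)
      · simp [dc, dt, W, ctr, OffA]
      · unfold dc
        rw [if_pos (by omega), add_sub_cancel_right]
        exact kap_off (dn_adj _)

theorem one : ∃ σ : L → ℂ ≃ᵢ ℂ, IsTiling hexagon σ ∧ IsArmed 1 (markedSet σ {arcS}) := by
  refine assemble (fun _ => dspiral) ?_ ?_
  · intro t
    rcases dn_reach t with ⟨k, hk⟩ | ⟨k, hk⟩
    · refine ⟨0, -k, trivial, ?_⟩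
      show dt (-k) = t
      unfold dt
      rw [if_neg (by omega), ← hk]
      simp
    · refine ⟨0, k + 1, trivial, ?_⟩
      show dt (k + 1) = t
      unfold dt
      rw [if_pos (by omega), ← hk]
      simp
  · intro i j h
    exact absurd (Subsingleton.elim i j) h

/-- a single arc marking of the regular hexagon works for every number of arms -/
theorem every {n : ℕ} (hn : 0 < n) :
    ∃ σ : ℤ × ℤ → ℂ ≃ᵢ ℂ, IsTiling hexagon σ ∧ IsArmed n (markedSet σ {arcS}) := by
  rcases Nat.lt_or_ge n 2 with h | h
  · obtain rfl : n = 1 := by omega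
    exact one
  · exact many h

end H71Hex
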